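import Pool.Agent.R826.KP

set_option autoImplicit false
open MeasureTheory ProbabilityTheory Filter Topology

namespace Pool.Agent.Results.MP_a7dd25_pr.NonUniversal

/-- the Kac polynomial `∑_{k ≤ n} ω_k X^k` -/
noncomputable def kacPoly (n : ℕ) (ω : ℕ → ℝ) : Polynomial ℝ :=
  ∑ k ∈ Finset.range (n + 1), Polynomial.C (ω k) * Polynomial.X ^ k

/-- number of real roots of the Kac polynomial, counted with multiplicity (the zero polynomial,
which has probability zero for the laws considered, is given the value `0`) -/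
noncomputable def rootCount (n : ℕ) (ω : ℕ → ℝ) : ℕ := Multiset.card (kacPoly n ω).roots

/-- law of the sequence of i.i.d. coefficients with common law `μ` -/
noncomputable def seqLaw (μ : Measure ℝ) : Measure (ℕ → ℝ) := Measure.infinitePi (fun _ : ℕ => μ)

/-- admissible laws: mean zero, variance one, a finite moment of order `2 + δ` -/
structure Admissible (μ : Measure ℝ) : Prop where
  prob : IsProbabilityMeasure μ
  moment : ∃ δ : ℝ, 0 < δ ∧ Integrable (fun x : ℝ => |x| ^ (2 + δ)) μ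
  mean : ∫ x, x ∂μ = 0
  var : ∫ x, x ^ 2 ∂μ = 1

/-- `C` is the constant `C_ξ` of the law `μ`: the expected number of real roots (with
multiplicity) of the degree `n` Kac polynomial is finite and equals
`(2/π) log n + C + o(1)` -/
def HasConst (μ : Measure ℝ) (C : ℝ) : Prop :=
  (∀ n : ℕ, Integrable (fun ω => (rootCount n ω : ℝ)) (seqLaw μ)) ∧
  Tendsto (fun n : ℕ => ∫ ω, (rootCount n ω : ℝ) ∂(seqLaw μ) - (2 / Real.pi) * Real.log n)
    atTop (𝓝 C)

/-- equal mixture of the centred normal laws with variances `1 + ε` and `1 - ε` -/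
noncomputable def mixLaw (ε : ℝ) : Measure ℝ :=
  (2⁻¹ : ENNReal) • gaussianReal 0 (Real.toNNReal (1 + ε)) +
    (2⁻¹ : ENNReal) • gaussianReal 0 (Real.toNNReal (1 - ε))

open Pool.Agent.R826 in
theorem family (ε : ℝ) (h0 : 0 < ε) (h1 : ε ≤ 1 / 4000) :
    Admissible (mixLaw ε) ∧ (∀ x : ℝ, mixLaw ε {x} = 0) ∧
      (∀ p : ℝ, 0 < p → Integrable (fun x : ℝ => |x| ^ p) (mixLaw ε)) ∧
      ∃ C CG : ℝ, HasConst (mixLaw ε) C ∧ HasConst (gaussianReal 0 1) CG ∧
        CG + 15 / 128 * ε ^ 2 - 1200 / Real.pi * ε ^ 3 ≤ C ∧ CG < C := by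
  have hS := KR.std_mix ε h0 (by linarith)
  refine ⟨⟨hS.prob, ⟨1, one_pos, KR.mix_moments ε (2 + 1) (by norm_num)⟩, hS.mean, hS.var⟩,
    KR.mix_singleton ε h0 (by linarith), fun p hp => KR.mix_moments ε p hp, ?_⟩
  obtain ⟨C, CG, hC, hCG, h2, h3⟩ := KR.final ε h0 h1
  exact ⟨C, CG, ⟨fun n => KR.integrable_roots _ hS (KR.mix_singleton ε h0 (by linarith)) n, hC⟩,
    ⟨fun n => KR.integrable_roots _ KR.std_gam KR.gam_singleton n, hCG⟩, h2, h3⟩

/-- The constant `C_ξ` is not universal among admissible laws without an atom at `0`: some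
admissible `μ` with `μ {0} = 0` has a constant different from the Gaussian one.  Explicitly,
every mixture `½ N(0, 1+ε) + ½ N(0, 1-ε)` with `0 < ε ≤ 1/4000` has a constant which is
strictly larger than the Gaussian one (by at least `(15/128) ε² - (1200/π) ε³`). -/
theorem result :
    (∃ μ : Measure ℝ, Admissible μ ∧ μ {0} = 0 ∧
      ∃ C CG : ℝ, HasConst μ C ∧ HasConst (gaussianReal 0 1) CG ∧ C ≠ CG) ∧
    (∀ ε : ℝ, 0 < ε → ε ≤ 1 / 4000 →
      Admissible (mixLaw ε) ∧ (∀ x : ℝ, mixLaw ε {x} = 0) ∧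
      (∀ p : ℝ, 0 < p → Integrable (fun x : ℝ => |x| ^ p) (mixLaw ε)) ∧
      ∃ C CG : ℝ, HasConst (mixLaw ε) C ∧ HasConst (gaussianReal 0 1) CG ∧
        CG + 15 / 128 * ε ^ 2 - 1200 / Real.pi * ε ^ 3 ≤ C ∧ CG < C) := by
  refine ⟨?_, fun ε h0 h1 => family ε h0 h1⟩
  obtain ⟨a, b, -, C, CG, h1, h2, -, h3⟩ := family (1 / 4000) (by norm_num) le_rfl
  exact ⟨mixLaw (1 / 4000), a, b 0, C, CG, h1, h2, h3.ne'⟩

end Pool.Agent.Results.MP_a7dd25_pr.NonUniversal
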